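import Pool.Agent.H11.LGR.All
import Pool.Agent.H87.CLG.All
import Pool.Agent.H87.CLG.Asm3

/-!
# Relatively free groups with a periodic derived subgroup: series of subgroups with factors of
finite exponent, or with two-generator subgroups nilpotent of bounded class, or locally linear of
bounded degree over commutative rings
-/

set_option autoImplicit false

namespace Pool.Agent.Results.MP_335823_al.SeriesWithLinearFactors

universe u v w

/-- Let `G` be a relatively free group with periodic derived subgroup and let `N 0, …, N k` be
subgroups of `G`, the first one containing the derived subgroup, such that for every `i < k` one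
of the following holds: `N (i+1)` contains all `e`-th powers of elements of `N i` for some
`e ≥ 1`; or `N (i+1)` contains the term `γ_{c+1}` of all two-generator subgroups of `N i` for some
`c`; or for some `n` every finitely generated subgroup `H` of `N i` acts linearly on some module
with `n` generators over some commutative ring such that the elements of `H` which act trivially
belong to `N (i+1)`. Then for some `n ≥ 1` all `n`-th powers of elements of the derived subgroup
lie in `N k`. -/
theorem result {G : Type u} [Group G] (X : Set G) (hX : Subgroup.closure X = ⊤)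
    (hfree : ∀ f : X → G, ∃ φ : G →* G, ∀ x : X, φ (x : G) = f x)
    (hper : ∀ g ∈ commutator G, IsOfFinOrder g)
    (k : ℕ) (N : ℕ → Subgroup G) (h0 : commutator G ≤ N 0)
    (hN : ∀ i < k, (∃ e : ℕ, 0 < e ∧ ∀ a ∈ N i, a ^ e ∈ N (i + 1)) ∨
      (∃ c : ℕ, ∀ a ∈ N i, ∀ b ∈ N i,
        (Subgroup.closure {a, b}).lowerCentralSeries c ≤ N (i + 1)) ∨
      ∃ n : ℕ, ∀ H : Subgroup G, H ≤ N i → H.FG → ∃ (R : Type v) (M : Type w) (_ : CommRing R)
        (_ : AddCommGroup M) (_ : Module R M) (s : Fin n → M) (ρ : H →* Module.End R M),
        Submodule.span R (Set.range s) = ⊤ ∧ ∀ a : H, ρ a = 1 → (a : G) ∈ N (i + 1)) :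
    ∃ n : ℕ, 0 < n ∧ ∀ g ∈ commutator G, g ^ n ∈ N k :=
  Pool.Agent.H87.CLG.chain5 Pool.Agent.H11.LGR.All.vrb.{u, v, w} Pool.Agent.H87.CLG.pcm
    Pool.Agent.H87.CLG.rel X hX hfree hper k N h0 hN

end Pool.Agent.Results.MP_335823_al.SeriesWithLinearFactors
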